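import Pool.Agent.Helper84.BA.Defs1

/-!
# Project BA, module B1: the maximum principle for names of sets
-/

set_option autoImplicit false

namespace Pool.Agent.Helper94.BA

open Pool.Agent.Helper33.HM

universe u v

/-- N3. The maximum principle for names of elements of `N → 2`. -/
theorem max_name {B : Type u} [CompleteBooleanAlgebra B] (hc : CCC B) {N : Type v}
    (Φ : (N → B) → B) (hΦ : ∀ x y : N → B, (⨅ n, iffV (x n) (y n)) ⊓ Φ x ≤ Φ y) :
    ∃ x, Φ x = ⨆ y, Φ y := by
  classical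
  set e : B := ⨆ y, Φ y with he
  obtain ⟨a, -, ha2, ha3, ha4, ha5⟩ := exists_partition hc isSub_univ
    (fun c => c ≤ eᶜ ∨ ∃ y, c ≤ Φ y) (by
      intro b _ hb
      by_cases hbe : b ⊓ e = ⊥
      · refine ⟨b, trivial, hb, le_rfl, Or.inl ?_⟩
        exact le_compl_iff_disjoint_right.2 (disjoint_iff.2 hbe)
      · obtain ⟨y, hy⟩ := exists_inf_ne_bot (f := Φ) hbe (inf_le_right.trans he.le)
        refine ⟨b ⊓ e ⊓ Φ y, trivial, ?_, inf_le_left.trans inf_le_left, Or.inr ⟨y, inf_le_right⟩⟩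
        exact hy)
    (Or.inl bot_le) (e := e) trivial
  have ha6 : ∀ i, ∃ y, a i ≤ Φ y := by
    intro i
    rcases ha2 i with h | h
    · refine ⟨fun _ => ⊥, ?_⟩
      have : a i ≤ e ⊓ eᶜ := le_inf (ha3 i) h
      rw [inf_compl_eq_bot] at this
      exact this.trans bot_le
    · exact h
  choose y hy using ha6
  refine ⟨fun n => ⨆ i, a i ⊓ y i n, le_antisymm (le_iSup _ _) ?_⟩
  conv_lhs => rw [← ha5]
  refine iSup_le fun i => ?_
  refine le_trans (le_inf (le_iInf fun n => ?_) (hy i)) (hΦ (y i) _)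
  rw [iffV]
  refine le_inf ?_ ?_
  · rw [le_himp_iff]
    exact le_iSup (fun i => a i ⊓ y i n) i
  · rw [le_himp_iff, inf_iSup_eq]
    refine iSup_le fun j => ?_
    by_cases hij : i = j
    · subst hij
      exact inf_le_right.trans inf_le_right
    · rw [← inf_assoc, ha4 i j hij, bot_inf_eq]
      exact bot_le

end Pool.Agent.Helper94.BA
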